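import Mathlib

open MeasureTheory Filter Set MvPolynomial
open scoped Topology

namespace Pool.Agent.MP701998.Sg

abbrev R := MvPolynomial ℕ ℝ

/-- finitely supported probability vectors on `[r, ∞)`, as linear forms -/
def S (r : ℕ) : Set R := convexHull ℝ (X '' Ici r)

theorem S_cv (r : ℕ) : Convex ℝ (S r) := convex_convexHull _ _

theorem X_mem {r j : ℕ} (h : r ≤ j) : (X j : R) ∈ S r := subset_convexHull _ _ ⟨j, h, rfl⟩

theorem S_anti : Antitone S := fun _ _ h => convexHull_mono (image_mono (Ici_subset_Ici.2 h))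

theorem lin_mem {M : Type*} [AddCommGroup M] [Module ℝ M] (φ : R →ₗ[ℝ] M) {C : Set M}
    (hC : Convex ℝ C) {r : ℕ} {P : R} (hP : P ∈ S r) (h : ∀ j, r ≤ j → φ (X j) ∈ C) : φ P ∈ C :=
  convexHull_min (t := φ ⁻¹' C) (by rintro _ ⟨j, hj, rfl⟩; exact h j hj)
    (hC.linear_preimage φ) hP

theorem lin_le (φ : R →ₗ[ℝ] ℝ) {c : ℝ} {r : ℕ} {P : R} (hP : P ∈ S r)
    (h : ∀ j, r ≤ j → φ (X j) ≤ c) : φ P ≤ c := lin_mem φ (convex_Iic c) hP h

theorem lin_eq (φ : R →ₗ[ℝ] ℝ) {c : ℝ} {r : ℕ} {P : R} (hP : P ∈ S r)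
    (h : ∀ j, r ≤ j → φ (X j) = c) : φ P = c := lin_mem φ (convex_singleton c) hP h

theorem lin_abs (φ : R →ₗ[ℝ] ℝ) {c e : ℝ} {r : ℕ} {P : R} (hP : P ∈ S r)
    (h : ∀ j, r ≤ j → |φ (X j) - c| ≤ e) : |φ P - c| ≤ e :=
  lin_mem φ (convex_closedBall c e) hP h

/-- substitution as a linear map -/
noncomputable def ev {A : Type} [CommRing A] [Algebra ℝ A] (y : ℕ → A) : R →ₗ[ℝ] A :=
  (aeval y : R →ₐ[ℝ] A).toLinearMap

@[simp] theorem ev_X {A : Type} [CommRing A] [Algebra ℝ A] (y : ℕ → A) (j : ℕ) :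
    ev y (X j) = y j := aeval_X y j

theorem ev_cont (P : R) : Continuous fun y : ℕ → ℝ => ev y P := continuous_eval P

structure CF (F : Filter R) : Prop where
  ne : F.NeBot
  cg : F.IsCountablyGenerated
  cv : ∀ U ∈ F, ∃ C ∈ F, Convex ℝ C ∧ C ⊆ U
  le : ∀ r, S r ∈ F

theorem CF.basis {F : Filter R} (h : CF F) :
    ∃ C : ℕ → Set R, (∀ n, Convex ℝ (C n)) ∧ (∀ n, C n ⊆ S 0) ∧ F.HasAntitoneBasis C := by
  have := h.cg
  have hb : F.HasBasis (fun C => C ∈ F ∧ Convex ℝ C ∧ C ⊆ S 0) id := ⟨fun U => ⟨fun hU => by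
    obtain ⟨C, h1, h2, h3⟩ := h.cv _ (inter_mem hU (h.le 0))
    exact ⟨C, ⟨h1, h2, h3.trans inter_subset_right⟩, h3.trans inter_subset_left⟩,
    fun ⟨C, h1, h2⟩ => mem_of_superset h1.1 h2⟩⟩
  obtain ⟨C, h1, h2⟩ := hb.exists_antitone_subbasis
  exact ⟨C, fun n => (h1 n).2.1, fun n => (h1 n).2.2, h2⟩

theorem CF.seq {F : Filter R} (h : CF F) {C : Set R} (hC : C ∈ F) :
    ∃ u : ℕ → R, (∀ j, u j ∈ C) ∧ Tendsto u atTop F := by
  have := h.cg
  have := h.ne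
  obtain ⟨u, hu⟩ := F.exists_seq_tendsto
  obtain ⟨N, hN⟩ := eventually_atTop.1 (hu hC)
  exact ⟨fun j => u (j + N), fun j => hN _ (Nat.le_add_left _ _),
    hu.comp (tendsto_add_atTop_nat N)⟩

theorem tendsto_lin {M : Type*} [AddCommGroup M] [Module ℝ M] (φ : R →ₗ[ℝ] M) {L : Filter M}
    (hL : ∀ U ∈ L, ∃ C ∈ L, Convex ℝ C ∧ C ⊆ U) {G : Filter R} (hG : ∀ r, S r ∈ G)
    (h : Tendsto (fun j => φ (X j)) atTop L) : Tendsto φ G L := fun U hU => by
  obtain ⟨C, h1, h2, h3⟩ := hL U hU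
  obtain ⟨r, hr⟩ := eventually_atTop.1 (h h1)
  exact mem_map.2 (mem_of_superset (hG r) fun P hP => h3 (lin_mem φ h2 hP hr))

theorem tendsto_real (φ : R →ₗ[ℝ] ℝ) {u : ℕ → R} {l : ℝ} {G : Filter R} (hG : ∀ r, S r ∈ G)
    (h : Tendsto (fun j => φ (u j)) atTop (𝓝 l)) : Tendsto φ (map (ev u) G) (𝓝 l) :=
  tendsto_lin (φ ∘ₗ ev u) (fun U hU => by
    obtain ⟨e, he, h⟩ := Metric.mem_nhds_iff.1 hU
    exact ⟨_, Metric.ball_mem_nhds l he, convex_ball l e, h⟩) hG (by simpa using h)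

theorem CF.sub {F G : Filter R} (hF : CF F) (hG : CF G) {u : ℕ → R} (hu : Tendsto u atTop F) :
    CF (map (ev u) G) ∧ map (ev u) G ≤ F := by
  have h : map (ev u) G ≤ F := tendsto_lin (ev u) hF.cv hG.le (by simpa using hu)
  have := hG.cg
  have := hG.ne
  refine ⟨⟨inferInstance, inferInstance, fun U hU => ?_, fun r => h (hF.le r)⟩, h⟩
  obtain ⟨C, h1, h2, h3⟩ := hG.cv _ hU
  exact ⟨_, image_mem_map h1, h2.linear_image _, image_subset_iff.2 h3⟩

theorem CF.iInf {ι : Type*} [Countable ι] [Nonempty ι] {G : ι → Filter R} (h : ∀ i, CF (G i))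
    (hd : Directed (· ≥ ·) G) : CF (⨅ i, G i) := by
  have := fun i => (h i).cg
  refine ⟨iInf_neBot_of_directed' hd fun i => (h i).ne, inferInstance, fun U hU => ?_,
    fun r => iInf_le G (Classical.arbitrary ι) ((h _).le r)⟩
  obtain ⟨i, hi⟩ := (mem_iInf_of_directed hd U).1 hU
  obtain ⟨C, h1, h2⟩ := (h i).cv U hi
  exact ⟨C, iInf_le G i h1, h2⟩

theorem tower {ι : Type*} (hι : Cardinal.mk ι ≤ Cardinal.aleph 1) (D : ι → Filter R → Prop)
    (hD : ∀ i F, CF F → ∃ G, CF G ∧ G ≤ F ∧ D i G) {F : Filter R} (hF : CF F) :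
    ∃ G : Option ι → Filter R, G none = F ∧ (∀ i, CF (G i)) ∧ (∀ i, D i (G (some i))) ∧
      Directed (· ≥ ·) G := by
  classical
  obtain ⟨_, _, hw⟩ := Cardinal.exists_ord_eq_type_lt ι
  have hc : ∀ i : ι, Countable (Iio i) := fun i => by
    have := (Cardinal.mk_Iio_lt i hw).trans_le hι
    rwa [← Cardinal.succ_aleph0, Order.lt_succ_iff, Cardinal.mk_le_aleph0_iff] at this
  choose! st h1 h2 h3 using hD
  let G : ι → Filter R := (wellFounded_lt (α := ι)).fix fun i g =>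
    st i (⨅ j : Option (Iio i), j.elim F fun j => g j j.2)
  have hG : ∀ i, G i = st i (⨅ j : Option (Iio i), j.elim F fun j => G j) := fun i =>
    WellFounded.fix_eq _ _ _
  have key : ∀ i, CF (⨅ j : Option (Iio i), j.elim F fun j => G j) →
      CF (G i) ∧ G i ≤ F ∧ D i (G i) ∧ ∀ j < i, G i ≤ G j := fun i h => by
    rw [hG i]
    exact ⟨h1 i _ h, (h2 i _ h).trans (iInf_le _ none), h3 i _ h,
      fun j hj => (h2 i _ h).trans (iInf_le _ (some (⟨j, hj⟩ : Iio i)))⟩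
  have all : ∀ i, CF (G i) ∧ G i ≤ F ∧ D i (G i) ∧ ∀ j < i, G i ≤ G j := fun i => by
    induction i using WellFoundedLT.induction with
    | ind i ih =>
      have := hc i
      refine key i (CF.iInf (by rintro (_ | j); exacts [hF, (ih j j.2).1]) ?_)
      rintro (_ | j) (_ | k)
      · exact ⟨none, le_rfl, le_rfl⟩
      · exact ⟨some k, (ih k k.2).2.1, le_rfl⟩
      · exact ⟨some j, le_rfl, (ih j j.2).2.1⟩
      · rcases lt_trichotomy j k with h | rfl | h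
        · exact ⟨some k, (ih k k.2).2.2.2 j h, le_rfl⟩
        · exact ⟨some j, le_rfl, le_rfl⟩
        · exact ⟨some j, le_rfl, (ih j j.2).2.2.2 k h⟩
  refine ⟨fun j => j.elim F G, rfl, by rintro (_ | j); exacts [hF, (all j).1],
    fun i => (all i).2.2.1, ?_⟩
  rintro (_ | j) (_ | k)
  · exact ⟨none, le_rfl, le_rfl⟩
  · exact ⟨some k, (all k).2.1, le_rfl⟩
  · exact ⟨some j, le_rfl, (all j).2.1⟩
  · rcases lt_trichotomy j k with h | rfl | h
    · exact ⟨some k, (all k).2.2.2 j h, le_rfl⟩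
    · exact ⟨some j, le_rfl, le_rfl⟩
    · exact ⟨some j, le_rfl, (all j).2.2.2 k h⟩

theorem tower_c {ι : Type*} [Countable ι] (D : ι → Filter R → Prop)
    (hD : ∀ i F, CF F → ∃ G, CF G ∧ G ≤ F ∧ ∀ G' ≤ G, D i G') {F : Filter R} (hF : CF F) :
    ∃ G, CF G ∧ G ≤ F ∧ ∀ i, D i G := by
  obtain ⟨G, h0, h1, h2, h3⟩ := tower
    (Cardinal.mk_le_aleph0.trans Cardinal.aleph0_lt_aleph_one.le) _ hD hF
  exact ⟨_, CF.iInf h1 h3, h0 ▸ iInf_le G none, fun i => h2 i _ (iInf_le G (some i))⟩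

/-- almost shift invariant vectors -/
def Inv (r : ℕ) : Set R := {P | P ∈ S r ∧ ∀ (y : ℕ → ℝ) (M : ℝ), (∀ j, |y j| ≤ M) →
  |ev (fun j => y (j + 1)) P - ev y P| ≤ 2 * M / (r + 1)}

def W : Filter R := ⨅ r, 𝓟 (Inv r)

theorem inv_mem (r : ℕ) : Inv r ∈ W := mem_iInf_of_mem r (mem_principal_self _)

theorem inv_anti : Antitone Inv := fun r s h P hP => ⟨S_anti h hP.1, fun y M hM =>
  (hP.2 y M hM).trans (by
    have := (abs_nonneg _).trans (hM 0)
    gcongr)⟩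

theorem W_cf : CF W := by
  have hb : W.HasAntitoneBasis Inv := HasAntitoneBasis.iInf_principal inv_anti
  refine ⟨hb.1.neBot_iff.2 fun {r} _ => ?_, by unfold W; infer_instance,
    fun U hU => ?_, fun r => mem_of_superset (inv_mem r) fun P hP => hP.1⟩
  · refine ⟨∑ j ∈ Finset.range (r + 1), ((r : ℝ) + 1)⁻¹ • X (r + j), (S_cv r).sum_mem
      (fun _ _ => by positivity) ?_ fun j _ => X_mem (Nat.le_add_right _ _), fun y M hM => ?_⟩
    · simp only [Finset.sum_const, Finset.card_range, nsmul_eq_mul]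
      push_cast
      field_simp
    · simp only [map_sum, map_smul, ev_X, smul_eq_mul, ← Finset.mul_sum, ← mul_sub,
        ← Finset.sum_sub_distrib]
      have := Finset.sum_range_sub (fun j => y (r + j)) (r + 1)
      simp only [← add_assoc] at this
      rw [this, abs_mul, abs_of_pos (by positivity), mul_comm, div_eq_mul_inv]
      gcongr
      linarith [abs_sub (y (r + r + 1)) (y (r + 0)), hM (r + r + 1), hM (r + 0)]
  · obtain ⟨r, hr⟩ := hb.mem_iff.1 hU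
    refine ⟨_, inv_mem r, fun P hP Q hQ a b ha hb hab => ⟨S_cv r hP.1 hQ.1 ha hb hab,
      fun y M hM => ?_⟩, hr⟩
    have := convex_closedBall (0 : ℝ) (2 * M / (r + 1)) (x := _) (y := _)
      (mem_closedBall_zero_iff.2 (hP.2 y M hM)) (mem_closedBall_zero_iff.2 (hQ.2 y M hM)) ha hb hab
    rw [mem_closedBall_zero_iff, Real.norm_eq_abs] at this
    convert this using 2
    simp only [map_add, map_smul, smul_eq_mul]
    ring

theorem atom_le {r : ℕ} {P : R} (hP : P ∈ Inv r) (l : ℕ) :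
    ev (Pi.single l (1 : ℝ) : ℕ → ℝ) P ≤ 2 / (r + 1) := by
  have h := hP.2 (fun j => if l < j then 1 else 0) 1 fun j => by split_ifs <;> simp
  have e := lin_eq (ev (Pi.single l (1 : ℝ) : ℕ → ℝ) - (ev (fun j => if l < j + 1 then (1 : ℝ) else 0)
    - ev fun j => if l < j then 1 else 0)) (c := 0) hP.1 fun j _ => by
      simp only [LinearMap.sub_apply, ev_X, Pi.single_apply]
      split_ifs <;> first | omega | simp
  simp only [LinearMap.sub_apply] at e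
  linarith [le_abs_self (ev (fun j => if l < j + 1 then (1 : ℝ) else 0) P -
    ev (fun j => if l < j then (1 : ℝ) else 0) P)]

theorem hilbert {H : Type*} [NormedAddCommGroup H] [InnerProductSpace ℝ H] [CompleteSpace H]
    {D : ℕ → Set H} (ha : Antitone D) (hc : ∀ n, Convex ℝ (D n)) (hne : ∀ n, (D n).Nonempty)
    {M : ℝ} (hM : ∀ n, ∀ h ∈ D n, ‖h‖ ≤ M) :
    ∃ (w : ℕ → H) (v : H), (∀ n, w n ∈ D n) ∧ Tendsto w atTop (𝓝 v) := by
  let d : ℕ → ℝ := fun N => Metric.infDist 0 (D N)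
  have d0 : ∀ N, 0 ≤ d N := fun N => Metric.infDist_nonneg
  have d1 : ∀ N, ∀ w ∈ D N, d N ≤ ‖w‖ := fun N w hw => by
    simpa using Metric.infDist_le_dist_of_mem (x := 0) hw
  have d2 : Monotone d := fun N N' h => Metric.infDist_le_infDist_of_subset (ha h) (hne N')
  have d3 : BddAbove (range d) := ⟨M, by
    rintro _ ⟨N, rfl⟩
    exact (d1 N _ (hne N).some_mem).trans (hM N _ (hne N).some_mem)⟩
  have d4 : Tendsto d atTop (𝓝 (⨆ N, d N)) := tendsto_atTop_ciSup d2 d3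
  have d5 : ∀ N : ℕ, ∃ w ∈ D N, ‖w‖ < d N + 1 / ((N : ℝ) + 1) := fun N => by
    obtain ⟨w, hw, h⟩ := (Metric.infDist_lt_iff (x := 0) (hne N)).1
      (lt_add_of_pos_right (d N) (Nat.one_div_pos_of_nat (n := N)))
    exact ⟨w, hw, by simpa using h⟩
  choose w hw hw' using d5
  have hc : CauchySeq w := by
    refine cauchySeq_of_le_tendsto_0
      (fun N => √(4 * ((⨆ N, d N) + 1 / ((N : ℝ) + 1)) ^ 2 - 4 * d N ^ 2)) (fun n m N hn hm => ?_) ?_
    · have e : ∀ n, N ≤ n → ‖w n‖ ^ 2 ≤ ((⨆ N, d N) + 1 / ((N : ℝ) + 1)) ^ 2 := fun n hn =>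
        pow_le_pow_left₀ (norm_nonneg _) ((hw' n).le.trans
          (add_le_add (le_ciSup d3 n) (Nat.one_div_le_one_div hn))) 2
      have e1 := d1 N _ (hc N (ha hn (hw n)) (ha hm (hw m)) (a := 2⁻¹) (b := 2⁻¹) (by norm_num)
        (by norm_num) (by norm_num))
      rw [← smul_add, norm_smul, norm_inv, Real.norm_two] at e1
      have e2 := parallelogram_law_with_norm ℝ (w n) (w m)
      rw [dist_eq_norm]
      refine Real.le_sqrt_of_sq_le ?_
      have e3 : (2 * d N) ^ 2 ≤ ‖w n + w m‖ ^ 2 :=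
        pow_le_pow_left₀ (by linarith [d0 N]) (by linarith) 2
      nlinarith [e n hn, e m hm]
    · have := ((((tendsto_one_div_add_atTop_nhds_zero_nat (𝕜 := ℝ)).const_add
        (⨆ N, d N)).pow 2).const_mul 4).sub ((d4.pow 2).const_mul 4) |>.sqrt
      simpa using this
  obtain ⟨v, hv⟩ := cauchySeq_tendsto_of_complete hc
  exact ⟨w, v, hw, hv⟩

theorem komlos {Ω : Type*} [MeasurableSpace Ω] (μ : Measure Ω) [IsFiniteMeasure μ]
    (c : Ω → R →ₗ[ℝ] ℝ) (hm : ∀ P, Measurable fun x => c x P)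
    (hb : ∀ x, ∀ P ∈ S 0, c x P ∈ Icc (0 : ℝ) 1) {F : Filter R} (hF : CF F) :
    ∃ G, CF G ∧ G ≤ F ∧ ∀ G' ≤ G, ∃ g : Ω → ℝ, Measurable g ∧ (∀ x, g x ∈ Icc (0 : ℝ) 1) ∧
      ∀ᵐ x ∂μ, Tendsto (c x) G' (𝓝 (g x)) := by
  obtain ⟨C, h1, h2, h3⟩ := hF.basis
  have := hF.ne
  have hn : ∀ x, ∀ P ∈ S 0, ‖c x P‖ ≤ 1 := fun x P hP => by
    rw [Real.norm_of_nonneg (hb x P hP).1]
    exact (hb x P hP).2
  obtain ⟨w, v, hw, hv⟩ := hilbert (H := Lp ℝ 2 μ)
    (D := fun n => {h | ∃ P ∈ C n, h =ᵐ[μ] fun x => c x P})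
    (M := (measureUnivNNReal μ : ℝ) ^ (2 : ENNReal).toReal⁻¹ * 1)
    (fun n m h _ ⟨P, p1, p2⟩ => ⟨P, h3.antitone h p1, p2⟩)
    (by
      rintro n f ⟨P, p1, p2⟩ g ⟨Q, q1, q2⟩ a b ha hb hab
      refine ⟨_, h1 n p1 q1 ha hb hab, ?_⟩
      filter_upwards [p2, q2, Lp.coeFn_add (a • f) (b • g), Lp.coeFn_smul a f, Lp.coeFn_smul b g]
        with x e1 e2 e3 e4 e5
      rw [e3, Pi.add_apply, e4, e5, Pi.smul_apply, Pi.smul_apply, e1, e2, map_add, map_smul,
        map_smul])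
    (fun n => by
      obtain ⟨P, hP⟩ := Filter.nonempty_of_mem (h3.mem n)
      have : MemLp (fun x => c x P) 2 μ := MemLp.of_bound (hm P).aestronglyMeasurable 1
        (Eventually.of_forall fun x => hn x P (h2 n hP))
      exact ⟨this.toLp _, P, hP, this.coeFn_toLp⟩)
    (by
      rintro n f ⟨P, p1, p2⟩
      refine Lp.norm_le_of_ae_bound zero_le_one ?_
      filter_upwards [p2] with x hx
      rw [hx]
      exact hn x P (h2 n p1))
  choose u hu hu' using hw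
  obtain ⟨ns, hns, h⟩ := (tendstoInMeasure_of_tendsto_Lp hv).exists_seq_tendsto_ae
  have ht : Tendsto (fun j => u (ns j)) atTop F := (h3.tendsto hu).comp hns.tendsto_atTop
  refine ⟨_, (hF.sub W_cf ht).1, (hF.sub W_cf ht).2, fun G' hG' =>
    ⟨fun x => projIcc (0 : ℝ) 1 zero_le_one (v x), ?_, fun x => Subtype.prop _, ?_⟩⟩
  · exact measurable_subtype_coe.comp (continuous_projIcc.measurable.comp
      (Lp.stronglyMeasurable v).measurable)
  · filter_upwards [h, ae_all_iff.2 hu'] with x e1 e2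
    simp only [e2] at e1
    rw [projIcc_of_mem _ (isClosed_Icc.mem_of_tendsto e1
      (Eventually.of_forall fun j => hb x _ (h2 _ (hu _))))]
    exact (tendsto_real (c x) W_cf.le e1).mono_left hG'

end Pool.Agent.MP701998.Sg
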