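import Pool.Agent.MP_701998_lc.Sg.A

open MeasureTheory Filter Set MvPolynomial
open scoped Topology

namespace Pool.Agent.MP701998.Sg

/-- the linear functional with given values on the monomials -/
noncomputable def lift (b : (ℕ →₀ ℕ) → ℝ) : R →ₗ[ℝ] ℝ := (basisMonomials ℕ ℝ).constr ℝ b

theorem lift_mono (b : (ℕ →₀ ℕ) → ℝ) (d : ℕ →₀ ℕ) : lift b (monomial d 1) = b d :=
  (basisMonomials ℕ ℝ).constr_basis ℝ b d

theorem ind {p : R → Prop} (h1 : ∀ d, p (monomial d 1)) (h2 : ∀ (c : ℝ) f, p f → p (c • f))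
    (h3 : ∀ f g, p f → p g → p (f + g)) (f : R) : p f :=
  f.induction_on' (fun d a => by simpa [smul_monomial] using h2 a _ (h1 d)) h3

def Prb (m : ℕ) : Set R := convexHull ℝ {f | ∃ d : ℕ →₀ ℕ, d.degree = m ∧ monomial d 1 = f}

theorem mono_prb (d : ℕ →₀ ℕ) : monomial d 1 ∈ Prb d.degree := subset_convexHull _ _ ⟨d, rfl, rfl⟩

theorem prb_mem {C : Set R} (hC : Convex ℝ C) {m : ℕ} {f : R} (hf : f ∈ Prb m)
    (h : ∀ d : ℕ →₀ ℕ, d.degree = m → monomial d 1 ∈ C) : f ∈ C :=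
  convexHull_min (by rintro _ ⟨d, hd, rfl⟩; exact h d hd) hC hf

theorem X_mul (j : ℕ) (d : ℕ →₀ ℕ) :
    (X j * monomial d 1 : R) = monomial (Finsupp.single j 1 + d) 1 := by
  rw [monomial_single_add, pow_one]

theorem mul_prb {P f : R} {m : ℕ} (hP : P ∈ S 0) (hf : f ∈ Prb m) : P * f ∈ Prb (m + 1) :=
  lin_mem (LinearMap.mulRight ℝ f) (convex_convexHull _ _) hP fun j _ =>
    prb_mem ((convex_convexHull ℝ _).linear_preimage (LinearMap.mulLeft ℝ (X j))) hf fun d hd =>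
      subset_convexHull ℝ _ ⟨Finsupp.single j 1 + d, by simp [hd, add_comm], (X_mul j d).symm⟩

theorem pow_prb {P f : R} {m : ℕ} (hP : P ∈ S 0) (hf : f ∈ Prb m) (i : ℕ) :
    P ^ i * f ∈ Prb (m + i) := by
  induction i with
  | zero => simpa using hf
  | succ i ih => rw [pow_succ', mul_assoc]; exact mul_prb hP ih

theorem one_prb : (1 : R) ∈ Prb 0 := mono_prb 0

theorem prod_prb {v : ℕ → R} (hv : ∀ k, v k ∈ S 0) (K : Finset ℕ) :
    ∏ k ∈ K, v k ∈ Prb K.card := by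
  induction K using Finset.induction_on with
  | empty => exact one_prb
  | insert k K hk ih => rw [Finset.prod_insert hk, Finset.card_insert_of_notMem hk]; exact mul_prb (hv k) ih

theorem lift_mem {b : (ℕ →₀ ℕ) → ℝ} (hb : ∀ d, b d ∈ Icc (0 : ℝ) 1) {m : ℕ} {f : R}
    (hf : f ∈ Prb m) : lift b f ∈ Icc (0 : ℝ) 1 :=
  prb_mem ((convex_Icc 0 1).linear_preimage (lift b)) hf fun d _ => by
    rw [mem_preimage, lift_mono]; exact hb d

variable {Ω : Type*} [MeasurableSpace Ω] (μ : Measure Ω) [IsFiniteMeasure μ]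

def BM (a : Ω → (ℕ →₀ ℕ) → ℝ) : Prop :=
  (∀ d, Measurable fun x => a x d) ∧ ∀ x d, a x d ∈ Icc (0 : ℝ) 1

theorem BM.meas {a : Ω → (ℕ →₀ ℕ) → ℝ} (h : BM a) (f : R) : Measurable fun x => lift (a x) f := by
  induction f using ind with
  | h1 d => simpa only [lift_mono] using h.1 d
  | h2 c f hf => simp only [map_smul]; exact hf.const_smul c
  | h3 f g hf hg => simp only [map_add]; exact hf.add hg

theorem BM.int {a : Ω → (ℕ →₀ ℕ) → ℝ} (h : BM a) {m : ℕ} {f : R} (hf : f ∈ Prb m) :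
    Integrable (fun x => lift (a x) f) μ :=
  Integrable.of_mem_Icc 0 1 (h.meas f).aemeasurable (Eventually.of_forall fun x => lift_mem (h.2 x) hf)

theorem one_step {a : Ω → (ℕ →₀ ℕ) → ℝ} (h : BM a) {F : Filter R} (hF : CF F) :
    ∃ G b, CF G ∧ BM b ∧ G ≤ F ∧
      ∀ᵐ x ∂μ, ∀ f, Tendsto (fun P => lift (a x) (P * f)) G (𝓝 (lift (b x) f)) := by
  obtain ⟨G, h1, h2, h3⟩ := tower_c _ (fun (d : ℕ →₀ ℕ) F hF => komlos μ
    (fun x => lift (a x) ∘ₗ LinearMap.mulRight ℝ (monomial d 1)) (fun P => h.meas _)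
    (fun x P hP => lift_mem (h.2 x) (mul_prb hP (mono_prb d))) hF) hF
  choose b b1 b2 b3 using h3
  refine ⟨G, fun x d => b d x, h1, ⟨b1, fun x d => b2 d x⟩, h2, ?_⟩
  filter_upwards [ae_all_iff.2 b3] with x hx f
  induction f using ind with
  | h1 d => rw [lift_mono]; exact hx d
  | h2 c f hf => simpa only [map_smul, mul_smul_comm] using hf.const_smul c
  | h3 f g hf hg => simpa only [map_add, mul_add] using hf.add hg

theorem chain {a : Ω → (ℕ →₀ ℕ) → ℝ} (h : BM a) (m : ℕ) :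
    ∃ G, CF G ∧ ∃ A : ℕ → Ω → (ℕ →₀ ℕ) → ℝ, A 0 = a ∧ (∀ i, BM (A i)) ∧
      ∀ᵐ x ∂μ, ∀ i < m, ∀ f,
        Tendsto (fun P => lift (A i x) (P * f)) G (𝓝 (lift (A (i + 1) x) f)) := by
  choose G b h1 h2 h3 h4 using fun s : {s : Filter R × (Ω → (ℕ →₀ ℕ) → ℝ) // CF s.1 ∧ BM s.2} =>
    one_step μ s.2.2 s.2.1
  let s : ℕ → {s : Filter R × (Ω → (ℕ →₀ ℕ) → ℝ) // CF s.1 ∧ BM s.2} := fun i =>
    i.rec ⟨(W, a), W_cf, h⟩ fun _ s => ⟨(G s, b s), h1 s, h2 s⟩
  have ha : Antitone fun i => (s i).1.1 := antitone_nat_of_succ_le fun i => h3 (s i)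
  refine ⟨_, (s m).2.1, fun i => (s i).1.2, rfl, fun i => (s i).2.2, ?_⟩
  filter_upwards [ae_all_iff.2 fun i => h4 (s i)] with x hx i hi f
  exact (hx i f).mono_left (ha (Nat.succ_le_of_lt hi))

theorem dom {Q : ℕ → ℕ → Set Ω} (hQ : ∀ t n, MeasurableSet (Q t n))
    (h : ∀ᵐ x ∂μ, ∀ t, ∀ᶠ n in atTop, x ∈ Q t n) :
    ∃ g : ℕ → ℕ, ∀ᵐ x ∂μ, ∀ᶠ t in atTop, ∀ n, g t ≤ n → x ∈ Q t n := by
  obtain ⟨e, e1, e2⟩ := ENNReal.exists_pos_sum_of_countable one_ne_zero ℕ
  have : ∀ t, ∃ M, μ (⋃ n ≥ M, (Q t n)ᶜ) ≤ e t := fun t => by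
    have h1 := tendsto_measure_iInter_atTop (μ := μ) (s := fun M => ⋃ n ≥ M, (Q t n)ᶜ)
      (fun M => (MeasurableSet.biUnion (to_countable _) fun n _ => (hQ t n).compl).nullMeasurableSet)
      (fun M M' hM => biUnion_subset_biUnion_left fun n hn => le_trans hM hn) ⟨0, measure_ne_top _ _⟩
    have h2 : μ (⋂ M, ⋃ n ≥ M, (Q t n)ᶜ) = 0 := by
      refine measure_mono_null ?_ (ae_iff.1 h)
      intro x hx hx'
      obtain ⟨M, hM⟩ := eventually_atTop.1 (hx' t)
      obtain ⟨n, h3, h4⟩ := mem_iUnion₂.1 (mem_iInter.1 hx M)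
      exact h4 (hM n h3)
    rw [h2] at h1
    exact (h1.eventually (ge_mem_nhds (ENNReal.coe_pos.2 (e1 t)))).exists
  choose g hg using this
  refine ⟨g, ?_⟩
  filter_upwards [ae_eventually_notMem (μ := μ)
    (((ENNReal.tsum_le_tsum hg).trans_lt (e2.trans ENNReal.one_lt_top)).ne)] with x hx
  filter_upwards [hx] with t ht n hn
  by_contra h'
  exact ht (mem_iUnion₂.2 ⟨n, hn, h'⟩)

theorem flat (α : R →ₗ[ℝ] ℝ) {v : ℕ → R} (hv : ∀ k, v k ∈ S 0) {c e θ : ℝ} {r m : ℕ} {P : R}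
    (h1 : ∀ n, ∀ f ∈ Prb n, |α f - c| ≤ 1) (he : 0 ≤ e) (hθ : 0 ≤ θ) (hP : P ∈ S r)
    (hP' : ∀ l, ev (Pi.single l (1 : ℝ) : ℕ → ℝ) P ≤ θ)
    (h2 : ∀ K : Finset ℕ, (∀ k ∈ K, r ≤ k) → K.card = m → |α (∏ k ∈ K, v k) - c| ≤ e) (i : ℕ) :
    ∀ K : Finset ℕ, (∀ k ∈ K, r ≤ k) → K.card + i = m →
      |α (ev v P ^ i * ∏ k ∈ K, v k) - c| ≤ e + i * (m * θ) := by
  have hQ : ev v P ∈ S 0 := lin_mem _ (S_cv 0) hP fun j _ => by simpa using hv j
  induction i with
  | zero => simpa using h2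
  | succ i ih =>
    intro K hK hm
    let φ : R →ₗ[ℝ] ℝ := α ∘ₗ LinearMap.mulRight ℝ (ev v P ^ i * ∏ k ∈ K, v k) ∘ₗ ev v
    let ψ : R →ₗ[ℝ] ℝ := ∑ l ∈ K, ev (Pi.single l (1 : ℝ) : ℕ → ℝ)
    have e1 : ∀ j, r ≤ j → |φ (X j) - c| ≤ e + i * (m * θ) + ψ (X j) := fun j hj => by
      simp only [φ, ψ, LinearMap.comp_apply, LinearMap.mulRight_apply, ev_X, LinearMap.sum_apply,
        Pi.single_apply, Finset.sum_ite_eq]
      split_ifs with h
      · refine (h1 _ _ (mul_prb (hv j) (pow_prb hQ (prod_prb hv K) i))).trans ?_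
        have : 0 ≤ e + i * (m * θ) := by positivity
        linarith
      · rw [add_zero, mul_left_comm, ← Finset.prod_insert h]
        exact ih _ (by simpa [hj] using hK) (by rw [Finset.card_insert_of_notMem h]; omega)
    have e2 : ψ P ≤ m * θ := by
      simp only [ψ, LinearMap.sum_apply]
      refine (Finset.sum_le_card_nsmul _ _ _ fun l _ => hP' l).trans ?_
      rw [nsmul_eq_mul]
      gcongr
      omega
    have e3 := lin_le (φ - ψ) (c := e + i * (m * θ) + c) hP fun j hj => by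
      rw [LinearMap.sub_apply]
      linarith [(abs_le.1 (e1 j hj)).2]
    have e4 := lin_le (-φ - ψ) (c := e + i * (m * θ) - c) hP fun j hj => by
      rw [LinearMap.sub_apply, LinearMap.neg_apply]
      linarith [(abs_le.1 (e1 j hj)).1]
    rw [pow_succ', mul_assoc]
    simp only [LinearMap.sub_apply, LinearMap.neg_apply] at e3 e4
    change |φ P - c| ≤ _
    push_cast
    rw [abs_le]
    constructor <;> linarith

theorem pk {a : Ω → (ℕ →₀ ℕ) → ℝ} (ha : BM a) (m : ℕ) :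
    ∃ G, CF G ∧ ∃ h : Ω → ℝ, Measurable h ∧ (∀ x, 0 ≤ h x) ∧
      ∀ᵐ x ∂μ, Tendsto (fun P => lift (a x) (P ^ m)) G (𝓝 (h x)) := by
  obtain ⟨G, hG, A, rfl, hA, h1⟩ := chain μ ha m
  obtain ⟨p, hp, hp'⟩ := hG.seq (hG.le 0)
  obtain ⟨g, hg⟩ := dom μ (Q := fun t n => {x | ∀ i < m, ∀ K ∈ (Finset.range t).powerset,
      |lift (A i x) (p n * ∏ k ∈ K, p k) - lift (A (i + 1) x) (∏ k ∈ K, p k)| ≤ 1 / ((t : ℝ) + 1)})
    (fun t n => measurableSet_setOfPred.2 (Measurable.forall fun i => measurable_const.imp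
      (Measurable.forall fun K => measurable_const.imp (measurableSet_setOfPred.1
        (measurableSet_le (((hA _).meas _).sub ((hA _).meas _)).abs measurable_const)))))
    (by
      filter_upwards [h1] with x hx t
      refine (eventually_all_finite (finite_lt_nat m)).2 fun i hi =>
        (eventually_all_finset _).2 fun K _ => ?_
      exact ((hx i hi _).comp hp').eventually
        (Metric.closedBall_mem_nhds _ Nat.one_div_pos_of_nat))
  let n : ℕ → ℕ := fun k => k.rec 0 fun _ a => max (g (a + 1)) (a + 1)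
  have hn : StrictMono n := strictMono_nat_of_lt_succ fun k => le_max_right (g (n k + 1)) _
  let v : ℕ → R := fun k => p (n (k + 1))
  have hv : Tendsto v atTop G := hp'.comp (hn.tendsto_atTop.comp (tendsto_add_atTop_nat 1))
  refine ⟨_, (hG.sub W_cf hv).1, fun x => lift (A m x) 1, (hA m).meas 1,
    fun x => (lift_mem ((hA m).2 x) one_prb).1, ?_⟩
  filter_upwards [hg] with x hx
  obtain ⟨t, ht⟩ := eventually_atTop.1 hx
  have key : ∀ r, t ≤ r → ∀ K : Finset ℕ, (∀ k ∈ K, r ≤ k) → ∀ i, i + K.card = m →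
      |lift (A i x) (∏ k ∈ K, v k) - lift (A m x) 1| ≤ K.card * (1 / ((r : ℝ) + 1)) := by
    intro r hr K
    induction K using Finset.induction_on_max with
    | empty => rintro - i rfl; simp
    | insert k K hk ih =>
      intro hK i hi
      have h0 : k ∉ K := fun h => (hk k h).false
      rw [Finset.card_insert_of_notMem h0] at hi ⊢
      have e0 : r ≤ n k + 1 := (hK k (by simp)).trans (hn.le_apply.trans (Nat.le_succ _))
      have e1 := ht (n k + 1) (hr.trans e0) (n (k + 1)) (le_max_left _ _) i (by omega)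
        (K.image fun j => n (j + 1)) (by
          simp only [Finset.mem_powerset, Finset.image_subset_iff, Finset.mem_range]
          exact fun j hj => Nat.lt_succ_of_le (hn.monotone (hk j hj)))
      rw [Finset.prod_image fun _ _ _ _ h => Nat.succ_injective (hn.injective h)] at e1
      have e2 := ih (fun j hj => hK j (by simp [hj])) (i + 1) (by omega)
      have e3 := abs_sub_le (lift (A i x) (v k * ∏ k ∈ K, v k)) (lift (A (i + 1) x) (∏ k ∈ K, v k))
        (lift (A m x) 1)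
      have e4 := Nat.one_div_le_one_div (α := ℝ) e0
      rw [Finset.prod_insert h0]
      push_cast at e1 e4 ⊢
      linarith
  refine Metric.tendsto_nhds.2 fun e he => ?_
  have h2 := (tendsto_one_div_add_atTop_nhds_zero_nat (𝕜 := ℝ)).const_mul ((m : ℝ) + m * (m * 2))
  rw [mul_zero] at h2
  obtain ⟨r, hr, hr'⟩ := ((h2.eventually (gt_mem_nhds he)).and (eventually_ge_atTop t)).exists
  refine mem_map.2 (mem_of_superset (inv_mem r) fun P hP => ?_)
  have := flat (lift (A 0 x)) (fun k => hp (n (k + 1))) (c := lift (A m x) 1)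
    (e := m * (1 / ((r : ℝ) + 1))) (m := m) (fun n f hf => by
      have e1 := lift_mem ((hA 0).2 x) hf
      have e2 := lift_mem ((hA m).2 x) one_prb
      rw [abs_le]
      constructor <;> linarith [e1.1, e1.2, e2.1, e2.2])
    (by positivity) (by positivity) hP.1 (atom_le hP)
    (fun K hK hm => hm ▸ key r hr' K hK 0 (by omega)) m ∅ (by simp) (by simp)
  rw [Finset.prod_empty, mul_one] at this
  refine this.trans_lt (lt_of_eq_of_lt ?_ hr)
  ring

theorem lln (α : R →ₗ[ℝ] ℝ) (ψ : ℕ → R →ₗ[ℝ] ℝ) (hψ : ∀ n j, |ψ n (X j)| ≤ 1) {c : ℝ} (hc : 0 ≤ c)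
    (b : ℕ → ℝ) (N : ℕ) (h : ∀ d, α (monomial d 1) ≤
      ∑ n ∈ Finset.range N, c * (ψ n (Finsupp.linearCombination ℕ X d) - b n) ^ 2)
    {P : R} (hP : P ∈ S 0) (i : ℕ) : ∀ d, α (P ^ i * monomial d 1) ≤ ∑ n ∈ Finset.range N,
      c * ((ψ n (Finsupp.linearCombination ℕ X d) + i * ψ n P - b n) ^ 2 + i) := by
  induction i with
  | zero => simpa using h
  | succ i ih =>
    intro d
    set A : ℕ → ℝ := fun n => ψ n (Finsupp.linearCombination ℕ X d) + i * ψ n P - b n with hA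
    have := lin_le (α ∘ₗ LinearMap.mulRight ℝ (P ^ i * monomial d 1) -
      ∑ n ∈ Finset.range N, (c * (2 * A n)) • ψ n)
      (c := ∑ n ∈ Finset.range N, c * (A n ^ 2 + 1 + i)) hP fun j _ => by
        simp only [LinearMap.sub_apply, LinearMap.comp_apply, LinearMap.mulRight_apply,
          LinearMap.sum_apply, LinearMap.smul_apply, smul_eq_mul]
        rw [mul_left_comm, X_mul, sub_le_iff_le_add, ← Finset.sum_add_distrib]
        refine (ih _).trans (Finset.sum_le_sum fun n _ => ?_)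
        rw [mul_assoc, ← mul_add, map_add, map_add, Finsupp.linearCombination_single, one_smul]
        refine mul_le_mul_of_nonneg_left ?_ hc
        have := (sq_le_one_iff_abs_le_one _).2 (hψ n j)
        simp only [hA]
        nlinarith
    simp only [LinearMap.sub_apply, LinearMap.comp_apply, LinearMap.mulRight_apply,
      LinearMap.sum_apply, LinearMap.smul_apply, smul_eq_mul] at this
    rw [sub_le_iff_le_add, ← Finset.sum_add_distrib] at this
    rw [pow_succ', mul_assoc]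
    refine this.trans (Finset.sum_le_sum fun n _ => ?_)
    rw [mul_assoc, ← mul_add]
    refine mul_le_mul_of_nonneg_left ?_ hc
    simp only [hA]
    push_cast
    nlinarith [sq_nonneg (ψ n P)]

theorem avg_mem {d : ℕ →₀ ℕ} {m : ℕ} (hm : 0 < m) (hd : d.degree = m) :
    (m : ℝ)⁻¹ • Finsupp.linearCombination ℕ X d ∈ S 0 := by
  rw [Finsupp.linearCombination_apply, Finsupp.sum, Finset.smul_sum]
  simp only [← Nat.cast_smul_eq_nsmul ℝ, smul_smul]
  refine (S_cv 0).sum_mem (fun _ _ => by positivity) ?_ fun j _ => X_mem j.zero_le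
  rw [← Finset.mul_sum, ← Nat.cast_sum, ← Finsupp.degree_apply, hd]
  exact inv_mul_cancel₀ (Nat.cast_ne_zero.2 hm.ne')

end Pool.Agent.MP701998.Sg
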