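import Pool.Agent.MP_701998_lc.Sg.B

open MeasureTheory Filter Set MvPolynomial TopologicalSpace
open scoped Topology NNReal

namespace Pool.Agent.MP701998.Sg

theorem nodes (Z : Type) [MetricSpace Z] [SecondCountableTopology Z] :
    ∃ (K : ℕ → Set Z) (r : ℕ), K r = univ ∧ (∀ s, IsClosed (K s)) ∧
      ∀ s, ∀ z ∈ K s, ∀ U ∈ 𝓝 z, ∃ t, z ∈ K t ∧ K t ⊆ K s ∩ U := by
  obtain ⟨K, hK⟩ := ((countable_ofPred_finite_subset (countable_countableBasis Z)).image
    fun T => ⋂ U ∈ T, closure U).exists_eq_range ⟨_, ∅, ⟨finite_empty, empty_subset _⟩, rfl⟩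
  have h1 : ∀ s, ∃ T : Set (Set Z), (T.Finite ∧ T ⊆ countableBasis Z) ∧
      ⋂ U ∈ T, closure U = K s := fun s => (hK ▸ mem_range_self s : K s ∈ _ '' _)
  have h2 : ∀ T : Set (Set Z), T.Finite → T ⊆ countableBasis Z →
      ∃ s, K s = ⋂ U ∈ T, closure U := fun T a b =>
    (hK ▸ mem_image_of_mem (fun T => ⋂ U ∈ T, closure U) ⟨a, b⟩ : _ ∈ range K)
  obtain ⟨r, hr⟩ := h2 ∅ finite_empty (empty_subset _)
  refine ⟨K, r, by simpa using hr, fun s => ?_, fun s z hz U hU => ?_⟩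
  · obtain ⟨T, -, h⟩ := h1 s
    exact h ▸ isClosed_biInter fun _ _ => isClosed_closure
  · obtain ⟨T, ⟨a, b⟩, h⟩ := h1 s
    obtain ⟨C, c1, c2, c3⟩ := exists_mem_nhds_isClosed_subset hU
    obtain ⟨B, b1, b2, b3⟩ := (isBasis_countableBasis Z).mem_nhds_iff.1 c1
    obtain ⟨t, ht⟩ := h2 (insert B T) (a.insert B) (insert_subset b1 b)
    rw [biInter_insert, h] at ht
    exact ⟨t, ht ▸ ⟨subset_closure b2, hz⟩, ht ▸ fun w hw =>
      ⟨hw.2, c3 (closure_minimal b3 c2 hw.1)⟩⟩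

theorem msel {σ : ℝ → ℕ} (hσ : Measurable σ) {A : ℕ → Set ℝ} (hA : ∀ s, MeasurableSet (A s)) :
    MeasurableSet {x | x ∈ A (σ x)} := by
  have : {x | x ∈ A (σ x)} = ⋃ s, σ ⁻¹' {s} ∩ A s := by
    ext x
    simp
  rw [this]
  exact MeasurableSet.iUnion fun s => (hσ (measurableSet_singleton s)).inter (hA s)

variable {Z : Type} [MetricSpace Z] (μ : Measure ℝ) [IsFiniteMeasure μ]
  (f : Z → ℝ) (Y : Z → ℕ → ℕ → ℝ) (V : Z → ℕ → ℝ) (K : ℕ → Set Z)

def Clu (F : Filter R) (z : Z) : Prop := MapClusterPt (V z) F fun P n => ev (Y z n) P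

def Bad (F : Filter R) (s : ℕ) : Set ℝ := f '' {z | z ∈ K s ∧ Clu Y V F z}

structure Hull (G : Filter R) (H : ℕ → Set ℝ) : Prop where
  ms : ∀ s, MeasurableSet (H s)
  mem : ∀ s, ∀ z ∈ K s, Clu Y V G z → f z ∈ H s
  cl : ∀ s, H s ⊆ closure (f '' K s)
  hull : ∀ s G', CF G' → G' ≤ G → ∀ M, MeasurableSet M →
    (∀ᵐ x ∂μ, x ∈ Bad f Y V K G' s → x ∈ M) → ∀ᵐ x ∂μ, x ∈ H s → x ∈ M

omit [MetricSpace Z] in
theorem bad_mono {F G : Filter R} (h : G ≤ F) (s : ℕ) : Bad f Y V K G s ⊆ Bad f Y V K F s :=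
  image_mono fun _ hz => ⟨hz.1, MapClusterPt.mono hz.2 h⟩

omit [MetricSpace Z] in
theorem stable {F : Filter R} (hF : CF F) : ∃ G H, CF G ∧ G ≤ F ∧ Hull μ f Y V K G H := by
  obtain ⟨G, h1, h2, h3⟩ := tower_c (fun (i : ℕ × ℚ) G =>
    μ (Bad f Y V K G i.1) < Real.toNNReal i.2 ∨
      ∀ G', CF G' → G' ≤ G → (Real.toNNReal i.2 : ENNReal) ≤ μ (Bad f Y V K G' i.1))
    (fun i F hF => by
      by_cases h : ∃ G, CF G ∧ G ≤ F ∧ μ (Bad f Y V K G i.1) < Real.toNNReal i.2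
      · obtain ⟨G, a, b, c⟩ := h
        exact ⟨G, a, b, fun G' h' => .inl ((measure_mono (bad_mono f Y V K h' _)).trans_lt c)⟩
      · exact ⟨F, hF, le_rfl, fun G' h' => .inr fun G a b => not_lt.1 fun c =>
          h ⟨G, a, b.trans h', c⟩⟩) hF
  refine ⟨G, fun s => toMeasurable μ (Bad f Y V K G s) ∩ closure (f '' K s), h1, h2,
    fun s => (measurableSet_toMeasurable _ _).inter isClosed_closure.measurableSet,
    fun s z a b => ⟨subset_toMeasurable _ _ ⟨z, ⟨a, b⟩, rfl⟩, subset_closure ⟨z, a, rfl⟩⟩,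
    fun s => inter_subset_right, fun s G' a b M hM h => ?_⟩
  have e1 : μ (Bad f Y V K G s) ≤ μ (Bad f Y V K G' s) := not_lt.1 fun c => by
    obtain ⟨q, -, q1, q2⟩ := ENNReal.lt_iff_exists_rat_btwn.1 c
    rcases h3 (s, q) with h | h
    · exact (h.trans q2).false
    · exact (q1.trans_le (h G' a b)).false
  have e2 : μ (Bad f Y V K G' s) ≤ μ (toMeasurable μ (Bad f Y V K G s) ∩ M) :=
    measure_mono_ae (h.mono fun x hx hx' =>
      ⟨subset_toMeasurable _ _ (bad_mono f Y V K b s hx'), hx hx'⟩)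
  have e3 := measure_inter_add_sdiff (μ := μ) (toMeasurable μ (Bad f Y V K G s)) hM
  rw [measure_toMeasurable] at e3
  have e4 : μ (toMeasurable μ (Bad f Y V K G s) \ M) = 0 := nonpos_iff_eq_zero.1
    ((ENNReal.add_le_add_iff_left (measure_ne_top _ _)).1 (e3.le.trans ((e1.trans e2).trans
      (add_zero _).ge)))
  filter_upwards [compl_mem_ae_iff.2 e4] with x hx hx'
  by_contra h'
  exact hx ⟨hx'.1, h'⟩

def Good (N : ℕ) (ν : R) (s t : ℕ) : Prop := K t ⊆ K s ∧ ∀ z ∈ K t,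
  (∀ w ∈ K t, dist z w ≤ 1 / ((N : ℝ) + 1)) ∧ ∀ n < N, |ev (Y z n) ν - V z n| ≤ 1 / ((N : ℝ) + 1)

def Fl (H : ℕ → Set ℝ) (N : ℕ) (ν : R) (s : ℕ) : Set ℝ :=
  H s \ ⋃ t ∈ {t | Good Y V K N ν s t}, H t

variable {f Y V K} (hY : Continuous Y) (hV : Continuous V) (hb : ∀ z n j, |Y z n j| ≤ 1)
  (hK : ∀ s, ∀ z ∈ K s, ∀ U ∈ 𝓝 z, ∃ t, z ∈ K t ∧ K t ⊆ K s ∩ U)
include hY hV hK

theorem good_of {N : ℕ} {ν : R} {s : ℕ} {z : Z} (hz : z ∈ K s)
    (h : ∀ n < N, |ev (Y z n) ν - V z n| < 1 / ((N : ℝ) + 1)) :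
    ∃ t, z ∈ K t ∧ Good Y V K N ν s t := by
  have h1 : ∀ᶠ w in 𝓝 z, ∀ n ∈ {n | n < N}, |ev (Y w n) ν - V w n| < 1 / ((N : ℝ) + 1) :=
    (eventually_all_finite (finite_lt_nat N)).2 fun n hn =>
      ((((ev_cont ν).comp ((continuous_apply n).comp hY)).sub
        ((continuous_apply n).comp hV)).abs.tendsto z).eventually (gt_mem_nhds (h n hn))
  obtain ⟨t, a, b⟩ := hK s z hz _ (inter_mem h1 (Metric.closedBall_mem_nhds z
    (half_pos (Nat.one_div_pos_of_nat (α := ℝ) (n := N)))))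
  refine ⟨t, a, fun w hw => (b hw).1, fun w hw => ⟨fun w' hw' => ?_,
    fun n hn => ((b hw).2.1 n hn).le⟩⟩
  have e1 := Metric.mem_closedBall.1 (b hw).2.2
  have e2 := Metric.mem_closedBall.1 (b hw').2.2
  linarith [dist_triangle_right w w' z]

include hb

theorem step {G : Filter R} {H : ℕ → Set ℝ} (hG : CF G) (hH : Hull μ f Y V K G H) {σ : ℝ → ℕ}
    (hσ : Measurable σ) (N : ℕ) {η : ℝ≥0} (hη : 0 < η) {C : Set R} (hC : C ∈ G) :
    ∃ ν ∈ C, μ {x | x ∈ Fl Y V K H N ν (σ x)} ≤ η := by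
  obtain ⟨D, d1, d2, d3⟩ := hG.cv _ (inter_mem hC (hG.le 0))
  obtain ⟨u, hu, hu'⟩ := hG.seq d1
  have h0 := tendsto_const_div_atTop_nhds_zero_nat
    (μ.real univ * ((N : ℝ) * ((N : ℝ) + 1) ^ 2))
  obtain ⟨m, hm, hm'⟩ := ((h0.eventually (gt_mem_nhds (NNReal.coe_pos.2 hη))).and
    (eventually_gt_atTop 0)).exists
  have m0 : (0 : ℝ) < m := Nat.cast_pos.2 hm'
  let ν : (ℕ →₀ ℕ) → R := fun d => ev u ((m : ℝ)⁻¹ • Finsupp.linearCombination ℕ X d)
  let E : (ℕ →₀ ℕ) → Set ℝ := fun d => {x | x ∈ Fl Y V K H N (ν d) (σ x)}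
  have hE : ∀ d, MeasurableSet (E d) := fun d => msel hσ fun s =>
    (hH.ms s).diff (MeasurableSet.biUnion (to_countable _) fun t _ => hH.ms t)
  let a : ℝ → (ℕ →₀ ℕ) → ℝ := fun x d => (E d).indicator 1 x
  have ha : BM a := ⟨fun d => measurable_one.indicator (hE d), fun x d =>
    ⟨indicator_nonneg (fun _ _ => zero_le_one) x, indicator_le_self' (fun _ _ => zero_le_one) x⟩⟩
  obtain ⟨G1, g1, h, h1, h2, h3⟩ := pk μ ha m
  have := g1.ne
  have := g1.cg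
  have h4 : ∀ s, ∀ᵐ x ∂μ, x ∈ H s → x ∈ {x | σ x = s → h x ≤ N * ((N : ℝ) + 1) ^ 2 / m} := by
    intro s
    refine hH.hull s _ (hG.sub g1 hu').1 (hG.sub g1 hu').2 _ (measurableSet_setOfPred.2
      ((hσ.eq_const s).imp (measurableSet_setOfPred.1 (measurableSet_le h1 measurable_const)))) ?_
    filter_upwards [h3] with x hx
    rintro ⟨z, ⟨z1, z2⟩, rfl⟩ rfl
    have e1 := fun P hP => lln (lift (a (f z))) (fun n => ev (Y z n) ∘ₗ ev u)
      (fun n j => by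
        simpa using lin_abs (ev (Y z n)) (c := 0) (d3 (hu j)).2 fun j _ => by simpa using hb z n j)
      (sq_nonneg (((N : ℝ) + 1) / m)) (fun n => m * V z n) N (fun d => by
        rw [lift_mono]
        by_cases h' : ∀ n < N, |ev (Y z n) (ν d) - V z n| < 1 / ((N : ℝ) + 1)
        · obtain ⟨t, t1, t2⟩ := good_of hY hV hK z1 h'
          refine (indicator_of_notMem (fun h'' => h''.2 (mem_biUnion t2 (hH.mem t z t1
            (MapClusterPt.mono z2 (hG.sub g1 hu').2)))) _).trans_le ?_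
          positivity
        · push Not at h'
          obtain ⟨n, n1, n2⟩ := h'
          refine (ha.2 _ d).2.trans (le_trans ?_ (Finset.single_le_sum
            (fun _ _ => by positivity) (Finset.mem_range.2 n1)))
          simp only [ν, map_smul, smul_eq_mul] at n2
          rw [div_le_iff₀ (by positivity), ← abs_of_pos (Nat.cast_add_one_pos (α := ℝ) N),
            ← abs_mul, ← one_le_sq_iff_one_le_abs] at n2
          refine n2.trans_eq ?_
          simp only [LinearMap.comp_apply]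
          field_simp) (P := P) hP m 0
    refine le_of_forall_gt_imp_ge_of_dense fun c hc => not_lt.1 fun hc' => ?_
    have e2 : Continuous fun w : ℕ → ℝ => ∑ n ∈ Finset.range N,
        (((N : ℝ) + 1) / m) ^ 2 * ((m * w n - m * V z n) ^ 2 + m) := by fun_prop
    have e3 := mapClusterPt_iff_frequently.1 z2 _ ((e2.tendsto (V z)).eventually (gt_mem_nhds
      (lt_of_eq_of_lt (by simp; field_simp) hc)))
    obtain ⟨P, p1, p2, p3⟩ := ((frequently_map.1 e3).and_eventually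
      ((hx.eventually (lt_mem_nhds hc')).and (g1.le 0))).exists
    have e4 := e1 P p3
    simp only [monomial_zero', C_1, mul_one, map_zero, zero_add, LinearMap.comp_apply] at e4
    exact (p2.trans (e4.trans_lt p1)).false
  have h5 : ∀ᵐ x ∂μ, h x ≤ N * ((N : ℝ) + 1) ^ 2 / m := by
    filter_upwards [h3, ae_all_iff.2 h4] with x e1 e2
    by_cases hx : x ∈ H (σ x)
    · exact e2 _ hx rfl
    · have : a x = 0 := funext fun d => indicator_of_notMem (fun h' => hx h'.1) _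
      refine le_of_tendsto' e1 fun P => ?_
      simp only [this, lift, map_zero, LinearMap.zero_apply]
      positivity
  have hp : ∀ P ∈ S 0, P ^ m ∈ Prb m := fun P hP => by simpa using pow_prb hP one_prb m
  have h6 := tendsto_integral_filter_of_dominated_convergence (μ := μ)
    (F := fun P x => lift (a x) (P ^ m)) (fun _ => (1 : ℝ))
    (Eventually.of_forall fun P => (ha.meas _).aestronglyMeasurable)
    (Eventually.mono (g1.le 0) fun P hP => Eventually.of_forall fun x => by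
      rw [Real.norm_of_nonneg (lift_mem (ha.2 x) (hp P hP)).1]
      exact (lift_mem (ha.2 x) (hp P hP)).2) (integrable_const _) h3
  have h7 : ∫ x, h x ∂μ < η := by
    refine (integral_mono_of_nonneg (Eventually.of_forall h2) (integrable_const _) h5).trans_lt ?_
    rwa [integral_const, smul_eq_mul, ← mul_div_assoc]
  obtain ⟨P, p1, p2⟩ := ((h6.eventually (gt_mem_nhds h7)).and (g1.le 0)).exists
  by_contra! h8
  refine p1.not_ge (prb_mem (C := {g | g ∈ Prb m ∧ η ≤ ∫ x, lift (a x) g ∂μ}) ?_ (hp P p2)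
    fun d hd => ⟨hd ▸ mono_prb d, ?_⟩).2
  · intro g hg g' hg' b c b0 c0 bc
    refine ⟨convex_convexHull ℝ _ hg.1 hg'.1 b0 c0 bc, ?_⟩
    simp only [map_add, map_smul, smul_eq_mul]
    rw [integral_add ((ha.int μ hg.1).const_mul b) ((ha.int μ hg'.1).const_mul c),
      integral_const_mul, integral_const_mul]
    exact convex_Ici (η : ℝ) hg.2 hg'.2 b0 c0 bc
  · simp only [lift_mono, a]
    rw [integral_indicator_one (hE d)]
    exact (ENNReal.toReal_mono (measure_ne_top _ _) (h8 (ν d) (d3 (lin_mem (ev u) d2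
      (avg_mem hm' hd) fun j _ => by simpa using hu j)).1).le :)

omit hK in
theorem dec [CompleteSpace Z] [SecondCountableTopology Z] (hf : Continuous f) {F : Filter R}
    (hF : CF F) : ∃ G, CF G ∧ G ≤ F ∧ ∃ H, MeasurableSet H ∧ (∀ z, Clu Y V G z → f z ∈ H) ∧
      ∀ᵐ x ∂μ, x ∈ H → ∃ z, f z = x ∧ ∀ n, Tendsto (ev (Y z n)) G (𝓝 (V z n)) := by
  classical
  obtain ⟨K, r, k1, k2, hK⟩ := nodes Z
  obtain ⟨G, H, hG, hGF, hH⟩ := stable μ f Y V K hF
  obtain ⟨C, -, -, hC⟩ := hG.basis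
  obtain ⟨e, e1, e2⟩ := ENNReal.exists_pos_sum_of_countable one_ne_zero ℕ
  have h1 : ∀ (i : ℕ) (σ : {σ : ℝ → ℕ // Measurable σ}), ∃ ν ∈ C i,
      ∃ τ : {σ : ℝ → ℕ // Measurable σ}, μ {x | x ∈ Fl Y V K H i ν (σ.1 x)} ≤ e i ∧ ∀ x,
        (Good Y V K i ν (σ.1 x) (τ.1 x) ∧ x ∈ H (τ.1 x)) ∨
          (τ.1 x = σ.1 x ∧ x ∉ ⋃ t ∈ {t | Good Y V K i ν (σ.1 x) t}, H t) := fun i σ => by
    obtain ⟨ν, n1, n2⟩ := step μ hY hV hb hK hG hH σ.2 i (e1 i) (hC.mem i)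
    have h : ∀ x, ∃ t, (Good Y V K i ν (σ.1 x) t ∧ x ∈ H t) ∨
        (t = σ.1 x ∧ x ∉ ⋃ t ∈ {t | Good Y V K i ν (σ.1 x) t}, H t) := fun x => by
      by_cases h : x ∈ ⋃ t ∈ {t | Good Y V K i ν (σ.1 x) t}, H t
      · obtain ⟨t, a, b⟩ := mem_iUnion₂.1 h
        exact ⟨t, .inl ⟨a, b⟩⟩
      · exact ⟨_, .inr ⟨rfl, h⟩⟩
    refine ⟨ν, n1, ⟨fun x => Nat.find (h x), measurable_find h fun t => ?_⟩, n2,
      fun x => Nat.find_spec (h x)⟩
    exact msel σ.2 (A := fun s => ({_x | Good Y V K i ν s t} ∩ H t) ∪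
      ({_x | t = s} ∩ (⋃ t ∈ {t | Good Y V K i ν s t}, H t)ᶜ)) fun s =>
      ((MeasurableSet.const _).inter (hH.ms t)).union ((MeasurableSet.const _).inter
        (MeasurableSet.biUnion (to_countable _) fun t _ => hH.ms t).compl)
  choose ν n1 τ n2 n3 using h1
  let σ : ℕ → {σ : ℝ → ℕ // Measurable σ} := fun i => i.rec ⟨fun _ => r, measurable_const⟩ τ
  have hν : Tendsto (fun i => ν i (σ i)) atTop G := hC.tendsto fun i => n1 i _
  refine ⟨_, (hG.sub W_cf hν).1, (hG.sub W_cf hν).2.trans hGF, H r, hH.ms r, fun z hz =>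
    hH.mem r z (k1 ▸ mem_univ z) (MapClusterPt.mono hz (hG.sub W_cf hν).2), ?_⟩
  filter_upwards [ae_eventually_notMem (μ := μ) (((ENNReal.tsum_le_tsum fun i => n2 i (σ i)).trans_lt
    (e2.trans ENNReal.one_lt_top)).ne)] with x hx hx'
  have a1 : ∀ i, x ∈ H ((σ i).1 x) := fun i => by
    induction i with
    | zero => exact hx'
    | succ i ih => exact (n3 i (σ i) x).elim (·.2) fun h => h.1 ▸ ih
  have a2 : Antitone fun i => K ((σ i).1 x) := antitone_nat_of_succ_le fun i =>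
    (n3 i (σ i) x).elim (·.1.1) fun h => (congrArg K h.1).le
  have a3 : ∀ᶠ i in atTop, Good Y V K i (ν i (σ i)) ((σ i).1 x) ((σ (i + 1)).1 x) :=
    hx.mono fun i hi => (n3 i (σ i) x).elim (·.1) fun h => (hi ⟨a1 i, h.2⟩).elim
  have a4 : ∀ i : ℕ, ∃ z ∈ K ((σ i).1 x), dist (f z) x < 1 / ((i : ℝ) + 1) := fun i => by
    obtain ⟨_, ⟨z, b, rfl⟩, c⟩ := Metric.mem_closure_iff.1 (hH.cl _ (a1 i)) _
      (Nat.one_div_pos_of_nat (n := i))
    exact ⟨z, b, by rwa [dist_comm]⟩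
  choose z z1 z2 using a4
  have t0 := tendsto_one_div_add_atTop_nhds_zero_nat (𝕜 := ℝ)
  have a5 : CauchySeq z := Metric.cauchySeq_iff.2 fun c hc => by
    obtain ⟨i, b1, b2⟩ := (a3.and (t0.eventually (gt_mem_nhds hc))).exists
    exact ⟨i + 1, fun j hj k hk => ((b1.2 _ (a2 hj (z1 j))).1 _ (a2 hk (z1 k))).trans_lt b2⟩
  obtain ⟨w, hw⟩ := cauchySeq_tendsto_of_complete a5
  have a6 : ∀ i, w ∈ K ((σ i).1 x) := fun i => (k2 _).mem_of_tendsto hw
    ((eventually_ge_atTop i).mono fun j hj => a2 hj (z1 j))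
  refine ⟨w, tendsto_nhds_unique ((hf.tendsto w).comp hw) (tendsto_iff_dist_tendsto_zero.2
    (squeeze_zero (fun _ => dist_nonneg) (fun i => (z2 i).le) t0)), fun n =>
    tendsto_real _ W_cf.le (tendsto_iff_dist_tendsto_zero.2
      (squeeze_zero' (Eventually.of_forall fun _ => dist_nonneg) ?_ t0))⟩
  filter_upwards [a3, eventually_gt_atTop n] with i b1 b2
  exact (b1.2 w (a6 (i + 1))).2 n b2

end Pool.Agent.MP701998.Sg
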