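import Pool.Agent.MP_701998_lc.Sg.C

open MeasureTheory Filter Set MvPolynomial TopologicalSpace
open scoped Topology NNReal

namespace Pool.Agent.MP701998.Sg

abbrev T := ℝ × (ℕ → ℕ → ℝ) × (ℕ → ℝ)

abbrev Linf := lp (fun _ : ℕ => ℝ) ⊤

theorem scale {U : Filter R} (hU : S 0 ∈ U) {y : ℕ → ℝ} {v : ℝ} (h : Tendsto (ev y) U (𝓝 v))
    (c : ℝ) : Tendsto (ev fun j => c * y j) U (𝓝 (c * v)) :=
  (h.const_mul c).congr' (Eventually.mono hU fun P hP => sub_eq_zero.1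
    (lin_eq (c • ev y - ev fun j => c * y j) hP fun j _ => by simp))

def Dec (μ : Measure ℝ) (B : Set T) (G : Filter R) : Prop :=
  ∃ H, MeasurableSet H ∧ (∀ b ∈ B, (∀ n, ∃ M, ∀ j, |b.2.1 n j| ≤ M) → ∀ U ≤ G, U.NeBot →
    (∀ n, Tendsto (ev (b.2.1 n)) U (𝓝 (b.2.2 n))) → b.1 ∈ H) ∧
    ∀ᵐ x ∂μ, x ∈ H → ∃ b ∈ B, b.1 = x ∧ (∀ n, ∃ M, ∀ j, |b.2.1 n j| ≤ M) ∧
      ∀ n, Tendsto (ev (b.2.1 n)) G (𝓝 (b.2.2 n))

theorem dense_dec (μ : Measure ℝ) [IsFiniteMeasure μ] {B : Set T} (hB : AnalyticSet B)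
    {F : Filter R} (hF : CF F) : ∃ G, CF G ∧ G ≤ F ∧ Dec μ B G := by
  obtain ⟨β, _, _, g, hg, rfl⟩ := analyticSet_iff_exists_polishSpace_range.1 hB
  let Z := {p : β × (ℕ → ℝ) | ∀ n j, |(g p.1).2.1 n j| ≤ |p.2 n| + 1}
  have hZ : IsClosed Z := by
    simp only [Z, ofPred_forall]
    exact isClosed_iInter fun n => isClosed_iInter fun j => isClosed_le (by fun_prop) (by fun_prop)
  have := hZ.polishSpace
  let := upgradeIsCompletelyMetrizable Z
  have hp : ∀ (z : Z) n, 0 < |z.1.2 n| + 1 := fun z n => by positivity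
  have hc : ∀ n, Continuous fun z : Z => (|z.1.2 n| + 1)⁻¹ := fun n =>
    Continuous.inv₀ (by fun_prop) fun z => (hp z n).ne'
  obtain ⟨G, h1, h2, H, h3, h4, h5⟩ := dec μ (Z := Z) (f := fun z => (g z.1.1).1)
    (Y := fun z n j => (|z.1.2 n| + 1)⁻¹ * (g z.1.1).2.1 n j)
    (V := fun z n => (|z.1.2 n| + 1)⁻¹ * (g z.1.1).2.2 n)
    (continuous_pi fun n => continuous_pi fun j => (hc n).mul (by fun_prop))
    (continuous_pi fun n => (hc n).mul (by fun_prop))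
    (fun z n j => by
      rw [abs_mul, abs_of_pos (inv_pos.2 (hp z n)), inv_mul_le_one₀ (hp z n)]
      exact z.2 n j) (by fun_prop) hF
  refine ⟨G, h1, h2, H, h3, ?_, h5.mono fun x hx hx' => ?_⟩
  · rintro _ ⟨b, rfl⟩ hb U hU hU' h
    choose M hM using hb
    refine h4 ⟨(b, M), fun n j => (hM n j).trans ((le_abs_self _).trans (lt_add_one _).le)⟩
      (MapClusterPt.mono (Tendsto.mapClusterPt (tendsto_pi_nhds.2 fun n => ?_)) hU)
    exact scale (hU (h1.le 0)) (h n) _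
  · obtain ⟨z, z1, z2⟩ := hx hx'
    refine ⟨_, ⟨z.1.1, rfl⟩, z1, fun n => ⟨_, z.2 n⟩, fun n => ?_⟩
    simpa only [mul_inv_cancel_left₀ (hp z n).ne'] using scale (h1.le 0) (z2 n) (|z.1.2 n| + 1)

theorem main {ι : Type*} (hι : Cardinal.mk ι ≤ Cardinal.aleph 1) (μ : ι → Measure ℝ)
    [∀ i, SFinite (μ i)] (B : ι → Set T) (hB : ∀ i, AnalyticSet (B i)) :
    ∃ L : Linf →L[ℝ] ℝ, ((∀ x : Linf,
      liminf (fun n => x n) atTop ≤ L x ∧ L x ≤ limsup (fun n => x n) atTop) ∧ ‖L‖ = 1 ∧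
      ∀ x y : Linf, (∀ n, y n = x (n + 1)) → L y = L x) ∧ ∀ i, NullMeasurableSet
        {t | ∃ y : ℕ → Linf, (t, (fun n k => y n k), fun n => L (y n)) ∈ B i} (μ i) := by
  obtain ⟨G, h0, h1, h2, h3⟩ := tower hι (fun i => Dec (μ i).toFinite (B i))
    (fun i F hF => dense_dec _ (hB i) hF) W_cf
  have := iInf_neBot_of_directed' h3 fun i => (h1 i).ne
  let U := Ultrafilter.of (⨅ i, G i)
  have hU : ∀ i, (U : Filter R) ≤ G i := fun i => (Ultrafilter.of_le _).trans (iInf_le G i)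
  have hW : (U : Filter R) ≤ W := h0 ▸ hU none
  have hS : ∀ r, ∀ᶠ P in U, P ∈ S r := fun r => hW (W_cf.le r)
  have hn : ∀ (x : Linf) j, |x j| ≤ ‖x‖ := fun x j => lp.norm_apply_le_norm ENNReal.top_ne_zero x j
  have h4 : ∀ x : Linf, ∃ c ∈ Metric.closedBall (0 : ℝ) ‖x‖,
      Tendsto (ev fun j => x j) U (𝓝 c) := fun x =>
    (isCompact_closedBall (0 : ℝ) ‖x‖).ultrafilter_le_nhds (U.map (ev fun j => x j))
      (le_principal_iff.2 (mem_map.2 ((hS 0).mono fun P hP =>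
        lin_abs _ hP fun j _ => by simpa using hn x j)))
  choose l l1 l2 using h4
  let L0 : Linf →ₗ[ℝ] ℝ := ⟨⟨l, fun x y => tendsto_nhds_unique (l2 _) (((l2 x).add (l2 y)).congr'
    ((hS 0).mono fun P hP => sub_eq_zero.1 (lin_eq ((ev fun j => x j) + (ev fun j => y j) -
      ev fun j => (x + y) j) hP fun j _ => by simp)))⟩,
    fun c x => tendsto_nhds_unique (l2 _) (scale (hS 0) (l2 x) c)⟩
  have hL : ∀ x, ‖L0 x‖ ≤ 1 * ‖x‖ := fun x =>
    (mem_closedBall_zero_iff.1 (l1 x)).trans (one_mul _).ge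
  have up : ∀ (x : Linf) c, (∀ᶠ j in atTop, x j ≤ c) → l x ≤ c := fun x c h => by
    obtain ⟨r, hr⟩ := eventually_atTop.1 h
    exact le_of_tendsto (l2 x) ((hS r).mono fun P hP => lin_le _ hP (by simpa using hr))
  have lo : ∀ (x : Linf) c, (∀ᶠ j in atTop, c ≤ x j) → c ≤ l x := fun x c h => by
    obtain ⟨r, hr⟩ := eventually_atTop.1 h
    exact ge_of_tendsto (l2 x) ((hS r).mono fun P hP =>
      lin_mem _ (convex_Ici c) hP (by simpa using hr))
  refine ⟨L0.mkContinuous 1 hL, ⟨fun x => ⟨liminf_le_of_le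
    (isBoundedUnder_of ⟨_, fun j => (abs_le.1 (hn x j)).1⟩) (lo x), le_limsup_of_le
    (isBoundedUnder_of ⟨_, fun j => (abs_le.1 (hn x j)).2⟩) (up x)⟩,
    le_antisymm (L0.mkContinuous_norm_le zero_le_one hL) ?_, fun x y h => ?_⟩, fun i => ?_⟩
  · have := (L0.mkContinuous 1 hL).le_opNorm 1
    rw [norm_one, mul_one] at this
    exact ((lo 1 1 (Eventually.of_forall fun _ => le_rfl)).trans (le_abs_self _)).trans this
  · have e : ∀ r : ℕ, |l y - l x| ≤ 2 * ‖x‖ * (1 / ((r : ℝ) + 1)) := fun r =>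
      le_of_tendsto ((l2 y).sub (l2 x)).abs (Eventually.mono (hW (inv_mem r)) fun P hP => by
        simpa only [h, mul_one_div] using hP.2 (fun j => x j) _ (hn x))
    have := ge_of_tendsto' ((tendsto_one_div_add_atTop_nhds_zero_nat (𝕜 := ℝ)).const_mul _) e
    rwa [mul_zero, abs_nonpos_iff, sub_eq_zero] at this
  · obtain ⟨H, a, b, c⟩ := h2 i
    refine (a.nullMeasurableSet.congr (μ := (μ i).toFinite) ?_).mono_ac
      (absolutelyContinuous_toFinite _)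
    filter_upwards [c] with x hx
    refine propext ⟨fun hx' => ?_, fun hy => hy.elim fun y hy =>
      b _ hy (fun n => ⟨_, hn (y n)⟩) U (hU _) inferInstance fun n => l2 _⟩
    obtain ⟨⟨_, y, v⟩, c1, rfl, c2, c3⟩ := hx hx'
    choose M hM using c2
    refine ⟨fun n => ⟨y n, memℓp_infty ⟨M n, forall_mem_range.2 (hM n)⟩⟩, ?_⟩
    convert c1 using 3
    funext n
    exact tendsto_nhds_unique (l2 _) ((c3 n).mono_left (hU _))

theorem card_le : Cardinal.mk (C(ℕ → ℕ, T) × FiniteMeasure ℝ) ≤ Cardinal.continuum := by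
  refine (Cardinal.mk_le_of_injective (β := (ℕ → T) × (ℚ → ℚ → ℝ))
    (f := fun p => (fun n => p.1 (denseSeq _ n),
      fun a b => (p.2 : Measure ℝ).real (Ioo a b))) ?_).trans (by simp [Cardinal.mk_real])
  rintro ⟨g, μ⟩ ⟨g', μ'⟩ h
  simp only [Prod.mk.injEq] at h ⊢
  refine ⟨ContinuousMap.coe_injective ((denseRange_denseSeq _).equalizer g.2 g'.2 h.1),
    FiniteMeasure.toMeasure_injective (Real.measure_ext_Ioo_rat fun a b => ?_)⟩
  exact (measureReal_eq_measureReal_iff (measure_ne_top _ _) (measure_ne_top _ _)).1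
    (congrFun (congrFun h.2 a) b)

theorem main_ch (h : Cardinal.continuum.{0} = Cardinal.aleph 1) :
    ∃ L : Linf →L[ℝ] ℝ, ((∀ x : Linf,
      liminf (fun n => x n) atTop ≤ L x ∧ L x ≤ limsup (fun n => x n) atTop) ∧ ‖L‖ = 1 ∧
      ∀ x y : Linf, (∀ n, y n = x (n + 1)) → L y = L x) ∧ ∀ (μ : Measure ℝ) [SFinite μ]
      (B : Set T), AnalyticSet B → NullMeasurableSet
        {t | ∃ y : ℕ → Linf, (t, (fun n k => y n k), fun n => L (y n)) ∈ B} μ := by
  obtain ⟨L, h1, h2⟩ := main (card_le.trans h.le) (fun p => (p.2 : Measure ℝ))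
    (fun p => range p.1) fun p => analyticSet_range_of_polishSpace p.1.2
  refine ⟨L, h1, fun μ _ B hB => ?_⟩
  rw [AnalyticSet] at hB
  obtain rfl | ⟨g, hg, rfl⟩ := hB
  · simp
  · exact (h2 (⟨g, hg⟩, ⟨μ.toFinite, inferInstance⟩)).mono_ac (absolutelyContinuous_toFinite _)

end Pool.Agent.MP701998.Sg
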